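import Pool.Agent.KDS.StmtsB
import Pool.Agent.Helper50_KDT.INB

/-!
# KDS, row GEN: generic points
-/

set_option autoImplicit false

namespace Pool.Agent.KDS.H91

open Polynomial Pool.Agent.SZT Pool.Agent.KDT Pool.Agent.KDS

/-- the Kummer quartic at `(1, s, p, k)` over a commutative ring -/
def qq {R : Type} [CommRing R] (f0 f1 f2 f3 f4 s p k : R) : R :=
  (s ^ 2 - 4 * p) * k ^ 2
    - 2 * (2 * f0 + s * f1 + 2 * p * f2 + s * p * f3 + 2 * p ^ 2 * f4 + s * p ^ 2) * k
    + (-4 * f0 * f2 + f1 ^ 2 - 4 * s * f0 * f3 - 2 * p * f1 * f3 - 4 * s ^ 2 * f0 * f4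
        + 4 * s * p * f0 - 4 * s * p * f1 * f4 + 2 * p ^ 2 * f1 - 4 * p ^ 2 * f2 * f4
        + p ^ 2 * f3 ^ 2 - 4 * s ^ 3 * f0 - 4 * s ^ 2 * p * f1 - 4 * s * p ^ 2 * f2
        - 2 * p ^ 3 * f3 + p ^ 4)

theorem qq_quart {E : Type} [Field E] (f : E[X]) (s p k : E) :
    quart f ![1, s, p, k] = qq (f.coeff 0) (f.coeff 1) (f.coeff 2) (f.coeff 3) (f.coeff 4) s p k := by
  unfold quart qq
  simp only [Matrix.cons_val_zero, Matrix.cons_val_one, Matrix.cons_val]
  ring

theorem qq_map {R S : Type} [CommRing R] [CommRing S] (φ : R →+* S) (f0 f1 f2 f3 f4 s p k : R) :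
    φ (qq f0 f1 f2 f3 f4 s p k) = qq (φ f0) (φ f1) (φ f2) (φ f3) (φ f4) (φ s) (φ p) (φ k) := by
  unfold qq
  simp only [map_add, map_sub, map_mul, map_pow, map_neg, map_ofNat]

/-- a polynomial relation between the generic coordinates is trivial -/
theorem gnc_ne {K E : Type} [Field K] [Field E] [Algebra K E] {A : E[X]} (h : Gnc K A)
    {F : MvPolynomial (Fin 2) K} (hF : F ≠ 0) :
    MvPolynomial.aeval ![-A.coeff 1, A.coeff 0] F ≠ 0 := by
  intro h0
  exact hF ((injective_iff_map_eq_zero _).1 h F h0)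

theorem pol1 {K : Type} [Field K] (a : K) :
    (MvPolynomial.X 1 - MvPolynomial.C a * MvPolynomial.X 0 + MvPolynomial.C (a ^ 2) :
      MvPolynomial (Fin 2) K) ≠ 0 := by
  intro h
  have h1 := congrArg (MvPolynomial.eval ![0, 1 - a ^ 2]) h
  simp at h1

theorem pol2 {K : Type} [Field K] :
    (MvPolynomial.X 0 ^ 2 - 4 * MvPolynomial.X 1 : MvPolynomial (Fin 2) K) ≠ 0 := by
  intro h
  have h1 := congrArg (MvPolynomial.eval ![1, 0]) h
  simp at h1

theorem co4 {K : Type} [Field K] (c3 c2 c1 c0 : K) :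
    (X ^ 4 + C c3 * X ^ 3 + C c2 * X ^ 2 + C c1 * X + C c0 : K[X]).coeff 4 = 1 := by
  rw [coeff_add, coeff_add, coeff_add, coeff_add, coeff_C_mul, coeff_C_mul, coeff_C_mul,
    coeff_X_pow, coeff_X_pow, coeff_X_pow, coeff_X, coeff_C]
  norm_num

/-- the divisor with given symmetric functions of the roots -/
theorem mum_sp {E : Type} [Field E] [CharZero E] [IsAlgClosed E] (f : E[X]) (s p : E)
    (hdisc : s ^ 2 - 4 * p ≠ 0) : ∃ A B : E[X], Mum f A B ∧ A.natDegree = 2 ∧
      -A.coeff 1 = s ∧ A.coeff 0 = p := by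
  obtain ⟨δ, hδ⟩ := IsAlgClosed.exists_pow_nat_eq (s ^ 2 - 4 * p) (n := 2) (by norm_num)
  have hδ0 : δ ≠ 0 := by
    intro h
    rw [h] at hδ
    exact hdisc (by rw [← hδ]; ring)
  have hne : (s + δ) / 2 ≠ (s - δ) / 2 := by
    intro h
    apply hδ0
    have : (s + δ) / 2 - (s - δ) / 2 = δ := by ring
    rw [← this, h, sub_self]
  obtain ⟨y₁, hy₁⟩ := IsAlgClosed.exists_pow_nat_eq (f.eval ((s + δ) / 2)) (n := 2) (by norm_num)
  obtain ⟨y₂, hy₂⟩ := IsAlgClosed.exists_pow_nat_eq (f.eval ((s - δ) / 2)) (n := 2) (by norm_num)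
  obtain ⟨A, B, hM, hA2, hA1, hA0, -⟩ := Pool.Agent.KDT.H50.mum_of f
    ((s + δ) / 2) ((s - δ) / 2) y₁ y₂ hne hy₁ hy₂
  refine ⟨A, B, hM, hA2, ?_, ?_⟩
  · rw [hA1]
    ring
  · rw [hA0]
    have : (s + δ) / 2 * ((s - δ) / 2) = (s ^ 2 - δ ^ 2) / 4 := by
      ring
    rw [this, hδ]
    ring

theorem pol3 {K : Type} [Field K] (f0 f1 f2 f3 f4 σ τ g : K) :
    qq (MvPolynomial.C f0) (MvPolynomial.C f1) (MvPolynomial.C f2) (MvPolynomial.C f3)
      (MvPolynomial.C f4) (MvPolynomial.X 0) (MvPolynomial.X 1)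
      (MvPolynomial.C σ * MvPolynomial.X 1 - MvPolynomial.C τ * MvPolynomial.X 0
        - MvPolynomial.C g : MvPolynomial (Fin 2) K) ≠ 0 := by
  intro h
  have h1 := congrArg (MvPolynomial.aeval ![(0 : K[X]), X]) h
  have h2 : (MvPolynomial.aeval ![(0 : K[X]), X] : MvPolynomial (Fin 2) K →ₐ[K] K[X])
      (qq (MvPolynomial.C f0) (MvPolynomial.C f1) (MvPolynomial.C f2) (MvPolynomial.C f3)
      (MvPolynomial.C f4) (MvPolynomial.X 0) (MvPolynomial.X 1)
      (MvPolynomial.C σ * MvPolynomial.X 1 - MvPolynomial.C τ * MvPolynomial.X 0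
        - MvPolynomial.C g : MvPolynomial (Fin 2) K)) =
      qq (C f0) (C f1) (C f2) (C f3) (C f4) 0 X (C σ * X - C g) := by
    have := qq_map ((MvPolynomial.aeval ![(0 : K[X]), X] : MvPolynomial (Fin 2) K →ₐ[K] K[X]) :
      MvPolynomial (Fin 2) K →+* K[X]) (MvPolynomial.C f0) (MvPolynomial.C f1) (MvPolynomial.C f2)
      (MvPolynomial.C f3) (MvPolynomial.C f4) (MvPolynomial.X 0) (MvPolynomial.X 1)
      (MvPolynomial.C σ * MvPolynomial.X 1 - MvPolynomial.C τ * MvPolynomial.X 0
        - MvPolynomial.C g)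
    simp only [RingHom.coe_coe, map_sub, map_mul, MvPolynomial.aeval_X, MvPolynomial.aeval_C,
      Matrix.cons_val_zero, Matrix.cons_val_one, mul_zero, sub_zero,
      Polynomial.algebraMap_eq] at this
    exact this
  rw [h2, map_zero] at h1
  have h3 : qq (C f0) (C f1) (C f2) (C f3) (C f4) 0 X (C σ * X - C g) =
      X ^ 4 + C (-4 * σ ^ 2 - 4 * f4 * σ - 2 * f3) * X ^ 3
        + C (8 * σ * g - 4 * f2 * σ + 4 * f4 * g + 2 * f1 - 4 * f2 * f4 + f3 ^ 2) * X ^ 2
        + C (-4 * g ^ 2 - 4 * f0 * σ + 4 * f2 * g - 2 * f1 * f3) * X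
        + C (4 * f0 * g - 4 * f0 * f2 + f1 ^ 2) := by
    unfold qq
    simp only [C_add, C_sub, C_mul, C_pow, C_neg, map_ofNat]
    ring
  rw [h3] at h1
  have h4 := congrArg (fun q : K[X] => q.coeff 4) h1
  simp only [co4, coeff_zero] at h4
  exact one_ne_zero h4

theorem root_ne {K E : Type} [Field K] [Field E] [Algebra K E] {A : E[X]} (hA : A.Monic)
    (h2 : A.natDegree = 2) (h : Gnc K A) (a : K) : A.eval (algebraMap K E a) ≠ 0 := by
  have h1 := gnc_ne h (pol1 a)
  have h3 : A.eval (algebraMap K E a) = (algebraMap K E a) ^ 2 +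
      A.coeff 1 * algebraMap K E a + A.coeff 0 := by
    have h4 : A.coeff 2 = 1 := by
      rw [← h2]
      exact hA.coeff_natDegree
    rw [eval_eq_sum_range, h2]
    simp only [Finset.sum_range_succ, Finset.sum_range_zero, h4]
    ring
  rw [h3]
  intro h0
  apply h1
  simp only [map_add, map_sub, map_mul, MvPolynomial.aeval_X, MvPolynomial.aeval_C,
      Matrix.cons_val_zero, Matrix.cons_val_one, map_pow]
  linear_combination h0

theorem gen (hKqu : KquStatement) : GenStatement := by
  intro K _ _ f hf hd _ hs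
  refine ⟨?_, ?_⟩
  · have hinj : Function.Injective (algebraMap (MvPolynomial (Fin 2) K)
        (AlgebraicClosure (FractionRing (MvPolynomial (Fin 2) K)))) := by
      rw [IsScalarTower.algebraMap_eq (MvPolynomial (Fin 2) K)
        (FractionRing (MvPolynomial (Fin 2) K))
        (AlgebraicClosure (FractionRing (MvPolynomial (Fin 2) K))), RingHom.coe_comp]
      exact Function.Injective.comp (RingHom.injective _) (IsFractionRing.injective _ _)
    set E := AlgebraicClosure (FractionRing (MvPolynomial (Fin 2) K)) with hE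
    have hch : CharZero E := charZero_of_injective_ringHom (RingHom.injective (algebraMap K E))
    set s : E := algebraMap (MvPolynomial (Fin 2) K) E (MvPolynomial.X 0) with hs0
    set p : E := algebraMap (MvPolynomial (Fin 2) K) E (MvPolynomial.X 1) with hp0
    have hal : AlgebraicIndependent K ![s, p] := by
      have h1 : (MvPolynomial.aeval ![s, p] : MvPolynomial (Fin 2) K →ₐ[K] E) =
          IsScalarTower.toAlgHom K (MvPolynomial (Fin 2) K) E := by
        apply MvPolynomial.algHom_ext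
        intro i
        rw [MvPolynomial.aeval_X]
        fin_cases i
        · rfl
        · rfl
      show Function.Injective _
      rw [h1]
      exact hinj
    have hdisc : s ^ 2 - 4 * p ≠ 0 := by
      intro h0
      have h1 : (MvPolynomial.aeval ![s, p] : MvPolynomial (Fin 2) K →ₐ[K] E)
          (MvPolynomial.X 0 ^ 2 - 4 * MvPolynomial.X 1) = 0 := by
        rw [← h0]
        simp
      exact pol2 ((injective_iff_map_eq_zero _).1 hal _ h1)
    obtain ⟨A, B, hM, hA2, e1, e0⟩ := mum_sp (f.map (algebraMap K E)) s p hdisc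
    refine ⟨E, inferInstance, inferInstance, inferInstance, A, B, hM, hA2, ?_⟩
    show AlgebraicIndependent K ![-A.coeff 1, A.coeff 0]
    rw [e1, e0]
    exact hal
  · intro E _ _ A B hM hA2 hG
    have hroot : ∀ a : E, (f.map (algebraMap K E)).IsRoot a → ∃ r : K, algebraMap K E r = a := by
      intro a ha
      exact hs.mem_range_of_isRoot hf.ne_zero (i := algebraMap K E) (x := a) ha
    refine ⟨⟨hM, hA2, ?_⟩, ?_, ?_⟩
    · refine (Polynomial.isCoprime_iff_aeval_ne_zero_of_isAlgClosed E (AlgebraicClosure E) A _).2 ?_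
      intro x
      by_contra hcon
      push Not at hcon
      obtain ⟨h1, h2⟩ := hcon
      have h3 : (f.map (algebraMap K (AlgebraicClosure E))).IsRoot x := by
        rw [IsRoot.def, eval_map_algebraMap]
        rw [aeval_map_algebraMap] at h2
        exact h2
      obtain ⟨r, hr⟩ := hs.mem_range_of_isRoot hf.ne_zero
        (i := algebraMap K (AlgebraicClosure E)) (x := x) h3
      have h4 : algebraMap E (AlgebraicClosure E) (algebraMap K E r) = x := by
        rw [← hr, ← IsScalarTower.algebraMap_apply]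
      rw [← h4, aeval_algebraMap_apply, coe_aeval_eq_eval] at h1
      exact root_ne hM.monic hA2 hG r
        ((map_eq_zero_iff _ (RingHom.injective (algebraMap E (AlgebraicClosure E)))).1 h1)
    · intro h0
      apply gnc_ne hG (pol2 (K := K))
      simp only [map_sub, map_mul, MvPolynomial.aeval_X, Matrix.cons_val_zero,
        Matrix.cons_val_one, map_pow, map_ofNat]
      linear_combination h0
    · intro a b ha hb _ h0
      obtain ⟨a', rfl⟩ := hroot a ha
      obtain ⟨b', rfl⟩ := hroot b hb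
      have hfm : (f.map (algebraMap K E)).Monic := hf.map _
      have hfd : (f.map (algebraMap K E)).natDegree = 5 := by
        rw [hf.natDegree_map]
        exact hd
      have hq := hKqu.1 E (f.map (algebraMap K E)) A B hfm hfd hM hA2
      set k : E := kum (f.map (algebraMap K E)) A B 3 with hk
      have hkum : kum (f.map (algebraMap K E)) A B = ![1, -A.coeff 1, A.coeff 0, k] := by
        funext i
        fin_cases i <;> rfl
      rw [hkum] at hq h0
      have hk' : k = (algebraMap K E a' + algebraMap K E b') * A.coeff 0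
          - algebraMap K E a' * algebraMap K E b' * (-A.coeff 1)
          - algebraMap K E ((a' + b') * (a' ^ 2 + a' * b' + b' ^ 2) + f.coeff 4 * (a' + b') ^ 2
            + f.coeff 3 * (a' + b') + f.coeff 2) := by
        unfold tau GG at h0
        simp only [Matrix.cons_val_zero, Matrix.cons_val_one, Matrix.cons_val, coeff_map] at h0
        simp only [map_add, map_mul, map_pow]
        linear_combination h0
      rw [qq_quart, hk'] at hq
      apply gnc_ne hG (pol3 (f.coeff 0) (f.coeff 1) (f.coeff 2) (f.coeff 3) (f.coeff 4) (a' + b')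
        (a' * b') ((a' + b') * (a' ^ 2 + a' * b' + b' ^ 2) + f.coeff 4 * (a' + b') ^ 2
            + f.coeff 3 * (a' + b') + f.coeff 2))
      have h5 := qq_map ((MvPolynomial.aeval ![-A.coeff 1, A.coeff 0] :
        MvPolynomial (Fin 2) K →ₐ[K] E) : MvPolynomial (Fin 2) K →+* E)
        (MvPolynomial.C (f.coeff 0)) (MvPolynomial.C (f.coeff 1)) (MvPolynomial.C (f.coeff 2))
        (MvPolynomial.C (f.coeff 3)) (MvPolynomial.C (f.coeff 4)) (MvPolynomial.X 0)
        (MvPolynomial.X 1)
        (MvPolynomial.C (a' + b') * MvPolynomial.X 1 - MvPolynomial.C (a' * b') * MvPolynomial.X 0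
          - MvPolynomial.C ((a' + b') * (a' ^ 2 + a' * b' + b' ^ 2) + f.coeff 4 * (a' + b') ^ 2
            + f.coeff 3 * (a' + b') + f.coeff 2))
      simp only [RingHom.coe_coe] at h5
      rw [h5]
      simp only [coeff_map] at hq
      simp only [map_sub, map_mul, MvPolynomial.aeval_X, MvPolynomial.aeval_C,
        Matrix.cons_val_zero, Matrix.cons_val_one]
      rw [map_add (algebraMap K E) a' b']
      exact hq

end Pool.Agent.KDS.H91
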